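import Pool.Agent.N126.IS.Stm2

/-! # Project IS2: a form of the Nullstellensatz (SPZ) -/

set_option autoImplicit false
set_option maxHeartbeats 400000

namespace Pool.Agent.N721.IS

open MvPolynomial

theorem main_SPZ : Pool.Agent.N126.IS.S_SPZ := by
  intro k K _ _ _ _ n μ hμ
  set I : Ideal (MvPolynomial (Fin n) k) := RingHom.ker (aeval μ : MvPolynomial (Fin n) k →ₐ[k] K)
    with hI
  have hP : I.IsPrime := RingHom.ker_isPrime _
  have hf : (∏ i, X i : MvPolynomial (Fin n) k) ∉ I := by
    rw [hI, RingHom.mem_ker, map_prod]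
    simp only [aeval_X]
    exact Finset.prod_ne_zero_iff.2 fun i _ => hμ i
  have h1 : (∏ i, X i : MvPolynomial (Fin n) k) ∉ vanishingIdeal k (zeroLocus k I) := by
    rw [vanishingIdeal_zeroLocus_eq_radical, hP.radical]
    exact hf
  rw [mem_vanishingIdeal_iff] at h1
  push Not at h1
  obtain ⟨x, hx, hx0⟩ := h1
  refine ⟨x, fun i h0 => hx0 ?_, fun P hP0 => ?_⟩
  · rw [map_prod]
    simp only [aeval_X]
    exact Finset.prod_eq_zero (Finset.mem_univ i) h0
  · have h2 := (mem_zeroLocus_iff.1 hx) P hP0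
    rwa [aeval_eq_eval] at h2

end Pool.Agent.N721.IS
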